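import Pool.Agent.PF.Main

set_option autoImplicit false

open CategoryTheory

namespace Pool.Agent.Results.MP_548ad9_al.DeepSubgroups

/-- The lower central series, numbered from zero: `lcs G 0 = G`, `lcs G (n+1) = [lcs G n, G]`.  (So
`lcs G n` is the term `γ_{n+1}(G)` of the problem file.) -/
def lcs (G : Type) [Group G] (n : ℕ) : Subgroup G := (⊤ : Subgroup G).lowerCentralSeries n

instance (G : Type) [Group G] (n : ℕ) : (lcs G n).Normal := by
  unfold lcs; infer_instance

/-- `G` is parafree: `G` is residually nilpotent, and for some free group `F` the groups `G/γ_n(G)`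
and `F/γ_n(F)` are isomorphic for every `n`. -/
def Parafree (G : Type) [Group G] : Prop :=
  (∀ g : G, (∀ n : ℕ, g ∈ lcs G n) → g = 1) ∧
  ∃ X : Type, ∀ n : ℕ, Nonempty ((G ⧸ lcs G n) ≃* (FreeGroup X ⧸ lcs (FreeGroup X) n))

/-- `H_2(G;ℤ)`: Mathlib's second group homology of `G` with coefficients in the trivial
`G`-module `ℤ`. -/
noncomputable abbrev H2 (G : Type) [Group G] : ModuleCat ℤ :=
  groupHomology (Rep.trivial ℤ G ℤ) 2

/-- The map `H_2(K;ℤ) → H_2(G;ℤ)` induced by the inclusion of the subgroup `K` in `G` and by the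
identity of `ℤ`. -/
noncomputable def inclusionMap {G : Type} [Group G] (K : Subgroup G) : H2 K ⟶ H2 G :=
  groupHomology.map (A := Rep.trivial ℤ K ℤ) (B := Rep.trivial ℤ G ℤ) K.subtype (𝟙 _) 2

/-- `K` is locally free: every finitely generated subgroup of `K` is a free group. -/
def LocallyFree (K : Type) [Group K] : Prop :=
  ∀ S : Subgroup K, S.FG → IsFreeGroup S

/-- Let `G` be a finitely generated parafree group and let `K` be a subgroup of `G` which contains
some term of the lower central series of `G`.  Then `H_2(K;ℤ) → H_2(G;ℤ)` is surjective.  In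
particular `H_2(G;ℤ) = 0` if `H_2(K;ℤ) = 0` for one such `K`, for instance if one such `K` is
locally free. -/
theorem result :
    ∀ (G : Type) [Group G] [Group.FG G], Parafree G →
      ∀ K : Subgroup G, (∃ n : ℕ, lcs G n ≤ K) →
        Function.Surjective (inclusionMap K) ∧
        (Limits.IsZero (H2 K) → Limits.IsZero (H2 G)) ∧
        (LocallyFree K → Limits.IsZero (H2 G)) := by
  intro G _ _ hG K ⟨n, hn⟩
  refine PF.main G ⟨?_, hG.2⟩ K n hn
  rw [eq_bot_iff]
  intro g hg
  rw [Subgroup.mem_bot]
  exact hG.1 g (fun m => by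
    have := (Subgroup.mem_iInf.1 hg) m
    exact this)

end Pool.Agent.Results.MP_548ad9_al.DeepSubgroups
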