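import Pool.Agent.PFC.HMain

set_option autoImplicit false

open CategoryTheory

namespace Pool.Agent.Results.MP_548ad9_al.FreeByNilpotent

/-- The lower central series, numbered from zero: `lcs G 0 = G`, `lcs G (n+1) = [lcs G n, G]`.  (So
`lcs G n` is the term `γ_{n+1}(G)` of the problem file.) -/
def lcs (G : Type) [Group G] (n : ℕ) : Subgroup G := (⊤ : Subgroup G).lowerCentralSeries n

instance (G : Type) [Group G] (n : ℕ) : (lcs G n).Normal := by
  unfold lcs; infer_instance

/-- `G` is parafree: `G` is residually nilpotent, and for some free group `F` the groups `G/γ_n(G)`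
and `F/γ_n(F)` are isomorphic for every `n`. -/
def Parafree (G : Type) [Group G] : Prop :=
  (∀ g : G, (∀ n : ℕ, g ∈ lcs G n) → g = 1) ∧
  ∃ X : Type, ∀ n : ℕ, Nonempty ((G ⧸ lcs G n) ≃* (FreeGroup X ⧸ lcs (FreeGroup X) n))

/-- `H_2(G;ℤ)`: Mathlib's second group homology of `G` with coefficients in the trivial
`G`-module `ℤ`. -/
noncomputable abbrev H2 (G : Type) [Group G] : ModuleCat ℤ :=
  groupHomology (Rep.trivial ℤ G ℤ) 2

/-- `cd(G) ≤ n`: the trivial module `ℤ` over the integral group ring `ℤG` has projective dimension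
at most `n` (Mathlib's `HasProjectiveDimensionLE`: `Ext^i(ℤ, M) = 0` for all `ℤG`-modules `M` and all
`i > n`). -/
def CdLE (G : Type) [Group G] (n : ℕ) : Prop :=
  HasProjectiveDimensionLE
    (ModuleCat.of (MonoidAlgebra ℤ G) (Representation.trivial ℤ G ℤ).asModule) n

/-- Let `G` be a finitely generated parafree group and let `K = lcs G n` be any term of its lower
central series.  Then `cd(G) ≤ cd(K) + 1`.  If `K` is a free group, then `cd(G) ≤ 2` and
`H_2(G;ℤ) = 0`: the strong parafree conjecture holds for all finitely generated parafree groups that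
are free-by-nilpotent. -/
theorem result :
    ∀ (G : Type) [Group G] [Group.FG G], Parafree G → ∀ n : ℕ,
      (∀ m : ℕ, CdLE (lcs G n) m → CdLE G (m + 1)) ∧
      (IsFreeGroup (lcs G n) → CdLE G 2 ∧ Limits.IsZero (H2 G)) := by
  intro G _ _ hG n
  have hP : PF.IsParafree G := by
    refine ⟨?_, hG.2⟩
    rw [eq_bot_iff]
    intro g hg
    rw [Subgroup.mem_bot]
    exact hG.1 g (fun m => by
      have := (Subgroup.mem_iInf.1 hg) m
      exact this)
  refine ⟨fun m h => PFC.cd_main G hP n m h, fun h => ⟨PFC.cd_free G hP n h, ?_⟩⟩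
  refine (PF.main G hP (lcs G n) n le_rfl).2.2 ?_
  intro S _
  have : IsFreeGroup (lcs G n) := h
  exact subgroupIsFreeOfIsFree S

end Pool.Agent.Results.MP_548ad9_al.FreeByNilpotent
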