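import Pool.Agent.PAN.Main

set_option autoImplicit false

open CategoryTheory

namespace Pool.Agent.Results.MP_548ad9_al.IteratedAmalgams

/-- The lower central series, numbered from zero: `lcs G 0 = G`, `lcs G (n+1) = [lcs G n, G]`.  (So
`lcs G n` is the term `γ_{n+1}(G)` of the problem file.) -/
def lcs (G : Type) [Group G] (n : ℕ) : Subgroup G := (⊤ : Subgroup G).lowerCentralSeries n

instance (G : Type) [Group G] (n : ℕ) : (lcs G n).Normal := by
  unfold lcs; infer_instance

/-- `G` is parafree: `G` is residually nilpotent, and for some free group `F` the groups `G/γ_n(G)`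
and `F/γ_n(F)` are isomorphic for every `n`. -/
def Parafree (G : Type) [Group G] : Prop :=
  (∀ g : G, (∀ n : ℕ, g ∈ lcs G n) → g = 1) ∧
  ∃ X : Type, ∀ n : ℕ, Nonempty ((G ⧸ lcs G n) ≃* (FreeGroup X ⧸ lcs (FreeGroup X) n))

/-- `H_2(G;ℤ)`: Mathlib's second group homology of `G` with coefficients in the trivial
`G`-module `ℤ`. -/
noncomputable abbrev H2 (G : Type) [Group G] : ModuleCat ℤ :=
  groupHomology (Rep.trivial ℤ G ℤ) 2

/-- `cd(G) ≤ n`: the trivial module `ℤ` over the integral group ring `ℤG` has projective dimension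
at most `n` (Mathlib's `HasProjectiveDimensionLE`: `Ext^i(ℤ, M) = 0` for all `ℤG`-modules `M` and all
`i > n`). -/
def CdLE (G : Type) [Group G] (n : ℕ) : Prop :=
  HasProjectiveDimensionLE
    (ModuleCat.of (MonoidAlgebra ℤ G) (Representation.trivial ℤ G ℤ).asModule) n

/-- `A` is a finitely generated free subgroup of `G`, and one of the following holds:

* `A` is generated by two elements;
* the map `A/[A,A] → G/[G,G]` is injective;
* for some prime `p` and some normal subgroup `U` of `G` whose index is a power of `p`, all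
  homomorphisms from `A` to `ℤ/p` are trivial on `A ∩ U`, i.e. `A ∩ U` is contained in `A^p[A,A]` (so the pro-`p`
  topology of `G` induces on `A` its full pro-`p` topology). -/
def Nice {G : Type} [Group G] (A : Subgroup G) : Prop :=
  IsFreeGroup A ∧ A.FG ∧
    ((∃ a b : G, Subgroup.closure {a, b} = A) ∨
      Function.Injective (Abelianization.map A.subtype) ∨
      ∃ (p : ℕ) (U : Subgroup G), p.Prime ∧ U.Normal ∧ (∃ k : ℕ, U.index = p ^ k) ∧
        ∀ (h : A →* Multiplicative (ZMod p)) (g : G) (hg : g ∈ A), g ∈ U → h ⟨g, hg⟩ = 1)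

/-- The subgroup `H` of `G` is the amalgamated product of its subgroups `B` and `A` over `B ∩ A`: for
every group `Y`, homomorphisms `f : B → Y` and `g : A → Y` which agree on `B ∩ A` have exactly one common
extension to `H`. -/
def IsAmalgam {G : Type} [Group G] (H B A : Subgroup G) : Prop :=
  B ≤ H ∧ A ≤ H ∧ ∀ (Y : Type) [Group Y] (f : B →* Y) (g : A →* Y),
    (∀ (x : G) (hB : x ∈ B) (hA : x ∈ A), f ⟨x, hB⟩ = g ⟨x, hA⟩) →
    ∃! F : H →* Y, (∀ (x : G) (hB : x ∈ B) (hH : x ∈ H), F ⟨x, hH⟩ = f ⟨x, hB⟩) ∧
      ∀ (x : G) (hA : x ∈ A) (hH : x ∈ H), F ⟨x, hH⟩ = g ⟨x, hA⟩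

/-- `Assoc B t` is the subgroup of the `x ∈ B` with `t x t⁻¹ ∈ B`. -/
def Assoc {G : Type} [Group G] (B : Subgroup G) (t : G) : Subgroup G :=
  B ⊓ B.comap (MulAut.conj t).toMonoidHom

/-- The subgroup `H` of `G` is the HNN extension of its subgroup `B` with stable letter `t`, which
conjugates `Assoc B t = B ∩ t⁻¹Bt` to `tBt⁻¹ ∩ B`: for every group `Y`, a homomorphism `f : B → Y` and an
element `y` with `y f(x) y⁻¹ = f(t x t⁻¹)` for all `x ∈ Assoc B t` have exactly one common extension to `H`
(`y` is the image of `t`). -/
def IsHNN {G : Type} [Group G] (H B : Subgroup G) (t : G) : Prop :=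
  B ≤ H ∧ t ∈ H ∧ ∀ (Y : Type) [Group Y] (f : B →* Y) (y : Y),
    (∀ (x : G) (h : x ∈ B) (h' : t * x * t⁻¹ ∈ B), y * f ⟨x, h⟩ * y⁻¹ = f ⟨t * x * t⁻¹, h'⟩) →
    ∃! F : H →* Y, (∀ (x : G) (hB : x ∈ B) (hH : x ∈ H), F ⟨x, hH⟩ = f ⟨x, hB⟩) ∧
      ∀ h : t ∈ H, F ⟨t, h⟩ = y

/-- The smallest class of subgroups `H` of `G` such that:

* `base`: every finitely generated subgroup `B` with the property `P` is in the class;
* `amalgam`: if `B₁` and `B₂` are in the class and `B₁ ∩ B₂` is contained in some nice subgroup `A` of `G`
  (nothing else is assumed about `B₁ ∩ B₂` and `A`; `A` need not be contained in `B₁` or `B₂`), then every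
  subgroup `H` which is the amalgamated product of `B₁` and `B₂` over `B₁ ∩ B₂` is in the class;
* `hnn`: if `B` is in the class and `Assoc B t` is contained in some nice subgroup `A` of `G`, then every
  HNN extension `H` of `B` with stable letter `t` is in the class.

So the class contains the fundamental group of every finite graph of groups (inside `G`) whose
vertex groups are in the class and each of whose edge groups is contained in a nice subgroup of
`G`, for example in a subgroup generated by two elements. -/
inductive Built {G : Type} [Group G] (P : Subgroup G → Prop) : Subgroup G → Prop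
  | base (B : Subgroup G) (hfg : B.FG) (hP : P B) : Built P B
  | amalgam (H B₁ B₂ A : Subgroup G) (h₁ : Built P B₁) (h₂ : Built P B₂) (hA : Nice A)
      (hCA : B₁ ⊓ B₂ ≤ A) (hH : IsAmalgam H B₁ B₂) : Built P H
  | hnn (H B A : Subgroup G) (t : G) (hB : Built P B) (hA : Nice A) (hCA : Assoc B t ≤ A)
      (hH : IsHNN H B t) : Built P H

/-- Let `G` be a finitely generated parafree group which is built from finitely generated subgroups
with the property `P`.  If all subgroups `B` with the property `P` satisfy `H_2(B;ℤ) = 0`, then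
`H_2(G;ℤ) = 0`; if they all satisfy `cd(B) ≤ 2`, then `cd(G) ≤ 2`.

So the strong parafree conjecture holds for `G` if it is built from finitely generated free groups,
and, more generally, from finitely generated groups `B` with `cd(B) ≤ 2` and `H_2(B;ℤ) = 0`.  For example it
holds for every finitely generated parafree group which is the fundamental group of a finite graph
of finitely generated free groups each of whose edge groups is contained in a two-generated
subgroup of `G` (edge groups may have any rank), and for every finitely generated parafree group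
which is an amalgamated product of two finitely generated free groups `A` and `B` over an arbitrary
subgroup, such that `A` has rank at most two or the abelianization of `A` embeds into the one of `G`. -/
theorem result :
    ∀ (G : Type) [Group G] [Group.FG G], Parafree G → ∀ P : Subgroup G → Prop,
      Built P (⊤ : Subgroup G) →
      ((∀ B : Subgroup G, P B → Limits.IsZero (H2 B)) → Limits.IsZero (H2 G)) ∧
      ((∀ B : Subgroup G, P B → CdLE B 2) → CdLE G 2) := by
  intro G _ _ hG P hB
  have hP : PF.IsParafree G := by
    refine ⟨?_, hG.2⟩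
    rw [eq_bot_iff]
    intro g hg
    rw [Subgroup.mem_bot]
    exact hG.1 g (fun m => by
      have := (Subgroup.mem_iInf.1 hg) m
      exact this)
  have hassoc : ∀ (B : Subgroup G) (t : G), Assoc B t = PAM.assoc B t := by
    intro B t
    ext x
    exact Iff.rfl
  have hnice : ∀ A : Subgroup G, Nice A → PAN.Nice A := by
    rintro A ⟨hf, hfg, h | h | ⟨p, U, hp, hU, hk, h⟩⟩
    · exact ⟨hf, hfg, Or.inl h⟩
    · exact ⟨hf, hfg, Or.inr (Or.inl h)⟩
    · exact ⟨hf, hfg, Or.inr (Or.inr ⟨p, hp, U, hU, hk, h⟩)⟩
  have h : ∀ H : Subgroup G, Built P H → PAN.Cls P H := by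
    intro H hH
    induction hH with
    | base B hfg hP => exact PAN.Cls.base B hfg hP
    | amalgam H B₁ B₂ A _ _ hA hCA hH ih ih' =>
      exact PAN.Cls.amalg H B₁ B₂ A ih ih' (hnice A hA) hCA hH
    | hnn H B A t _ hA hCA hH ih =>
      rw [hassoc] at hCA
      exact PAN.Cls.hnn H B A t ih (hnice A hA) hCA hH
  exact PAN.main G hP P (h ⊤ hB)

end Pool.Agent.Results.MP_548ad9_al.IteratedAmalgams
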