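import Pool.Agent.PRT.Main

set_option autoImplicit false

open CategoryTheory

namespace Pool.Agent.Results.MP_548ad9_al.RankTwo

/-- The lower central series, numbered from zero: `lcs G 0 = G`, `lcs G (n+1) = [lcs G n, G]`.  (So
`lcs G n` is the term `γ_{n+1}(G)` of the problem file.) -/
def lcs (G : Type) [Group G] (n : ℕ) : Subgroup G := (⊤ : Subgroup G).lowerCentralSeries n

instance (G : Type) [Group G] (n : ℕ) : (lcs G n).Normal := by
  unfold lcs; infer_instance

/-- `G` is residually nilpotent. -/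
def ResNil (G : Type) [Group G] : Prop := ∀ g : G, (∀ n : ℕ, g ∈ lcs G n) → g = 1

/-- `G` is parafree: `G` is residually nilpotent, and for some free group `F` the groups `G/γ_n(G)`
and `F/γ_n(F)` are isomorphic for every `n`. -/
def Parafree (G : Type) [Group G] : Prop :=
  ResNil G ∧ ∃ X : Type, ∀ n : ℕ, Nonempty ((G ⧸ lcs G n) ≃* (FreeGroup X ⧸ lcs (FreeGroup X) n))

/-- `G` is parafree of rank two: the free group `F` in the definition has rank two. -/
def ParafreeTwo (G : Type) [Group G] : Prop :=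
  ResNil G ∧
    ∀ n : ℕ, Nonempty ((G ⧸ lcs G n) ≃* (FreeGroup (Fin 2) ⧸ lcs (FreeGroup (Fin 2)) n))

/-- The largest quotient of `G` which is solvable of derived length at most `m` is the one of the free
group of rank two: `G/G^(m)` and `F_2/F_2^(m)` are isomorphic (`derivedSeries G m` is the `m`-th
derived group `G^(m)`). -/
def FreeSolvQuot (m : ℕ) (G : Type) [Group G] : Prop :=
  Nonempty ((G ⧸ derivedSeries G m) ≃*
    (FreeGroup (Fin 2) ⧸ derivedSeries (FreeGroup (Fin 2)) m))

/-- `H_2(G;ℤ)`: Mathlib's second group homology of `G` with coefficients in the trivial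
`G`-module `ℤ`. -/
noncomputable abbrev H2 (G : Type) [Group G] : ModuleCat ℤ :=
  groupHomology (Rep.trivial ℤ G ℤ) 2

/-- The map `H_2(G;ℤ) → H_2(P;ℤ)` induced by a homomorphism `G → P` and by the identity of `ℤ`. -/
noncomputable def H2map {G P : Type} [Group G] [Group P] (j : G →* P) : H2 G ⟶ H2 P :=
  groupHomology.map (A := Rep.trivial ℤ G ℤ) (B := Rep.trivial ℤ P ℤ) j (𝟙 _) 2

/-- `cd(G) ≤ n`: the trivial module `ℤ` over the integral group ring `ℤG` has projective dimension
at most `n` (Mathlib's `HasProjectiveDimensionLE`: `Ext^i(ℤ, M) = 0` for all `ℤG`-modules `M` and all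
`i > n`). -/
def CdLE (G : Type) [Group G] (n : ℕ) : Prop :=
  HasProjectiveDimensionLE
    (ModuleCat.of (MonoidAlgebra ℤ G) (Representation.trivial ℤ G ℤ).asModule) n

/-- For every `m`:

(1) for every finitely generated parafree group `G` there are a finitely generated group `P`,
parafree of rank two with `P/P^(m) ≅ F_2/F_2^(m)`, and an injective homomorphism `j : G → P` with image
in the `m`-th derived group of `P`, such that `P` is generated by `j(G)` and two elements, the
induced map `H_2(G;ℤ) → H_2(P;ℤ)` is injective, and `cd(P) ≤ n` implies `cd(G) ≤ n`;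

(2) the parafree conjecture (`H_2(G;ℤ) = 0` for all finitely generated parafree groups) holds if and
only if it holds for all finitely generated `P` which are parafree of rank two with
`P/P^(m) ≅ F_2/F_2^(m)`;

(3) the same for the strong parafree conjecture (`H_2(G;ℤ) = 0` and `cd(G) ≤ 2`). -/
theorem result (m : ℕ) :
    (∀ (G : Type) [Group G] [Group.FG G], Parafree G →
      ∃ (P : Type) (_ : Group P) (j : G →* P), Group.FG P ∧ ParafreeTwo P ∧ FreeSolvQuot m P ∧
        Function.Injective j ∧ (∀ g, j g ∈ derivedSeries P m) ∧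
        (∃ a b : P, Subgroup.closure (Set.range j ∪ {a, b}) = ⊤) ∧
        Function.Injective (H2map j) ∧ ∀ n : ℕ, CdLE P n → CdLE G n) ∧
    ((∀ (G : Type) [Group G] [Group.FG G], Parafree G → Limits.IsZero (H2 G)) ↔
      ∀ (P : Type) [Group P] [Group.FG P], ParafreeTwo P → FreeSolvQuot m P →
        Limits.IsZero (H2 P)) ∧
    ((∀ (G : Type) [Group G] [Group.FG G], Parafree G → Limits.IsZero (H2 G) ∧ CdLE G 2) ↔
      ∀ (P : Type) [Group P] [Group.FG P], ParafreeTwo P → FreeSolvQuot m P →
        Limits.IsZero (H2 P) ∧ CdLE P 2) := by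
  have key : ∀ (G : Type) [Group G] [Group.FG G], Parafree G →
      ∃ (P : Type) (_ : Group P) (j : G →* P), Group.FG P ∧ ParafreeTwo P ∧ FreeSolvQuot m P ∧
        Function.Injective j ∧ (∀ g, j g ∈ derivedSeries P m) ∧
        (∃ a b : P, Subgroup.closure (Set.range j ∪ {a, b}) = ⊤) ∧
        Function.Injective (H2map j) ∧ ∀ n : ℕ, CdLE P n → CdLE G n := by
    intro G _ _ hG
    have hG' : PF.IsParafree G := by
      refine ⟨?_, hG.2⟩
      rw [eq_bot_iff]
      intro g hg
      rw [Subgroup.mem_bot]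
      exact hG.1 g (fun m => (Subgroup.mem_iInf.1 hg) m)
    obtain ⟨P, iP, j, a, b, h1, ⟨h2, h3⟩, h4, h5, h6, h7, h8, h9⟩ := PRT.main G hG' m
    refine ⟨P, iP, j, h1, ⟨?_, h3⟩, h4, h5, h6, ⟨a, b, h7⟩, h8, h9⟩
    intro g hg
    rw [← Subgroup.mem_bot, ← h2, Subgroup.mem_iInf]
    exact hg
  have par : ∀ (P : Type) [Group P], ParafreeTwo P → Parafree P :=
    fun P _ h => ⟨h.1, Fin 2, h.2⟩
  refine ⟨key, ⟨fun h P _ _ hP _ => h P (par P hP), fun h G _ _ hG => ?_⟩,
    ⟨fun h P _ _ hP _ => h P (par P hP), fun h G _ _ hG => ?_⟩⟩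
  · obtain ⟨P, iP, j, h1, h2, h3, -, -, -, h4, -⟩ := key G hG
    exact PRT.h2_isZero j h4 (h P h2 h3)
  · obtain ⟨P, iP, j, h1, h2, h3, -, -, -, h4, h5⟩ := key G hG
    have h6 := h P h2 h3
    exact ⟨PRT.h2_isZero j h4 h6.1, h5 2 h6.2⟩

end Pool.Agent.Results.MP_548ad9_al.RankTwo
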